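import Pool.Agent.H74.Av3

namespace Pool.Agent.Results.MP_635878_co.Max
open Finset

/-- `S` is 1-nearly independent: exactly one edge of `G` has both ends in `S`. -/
def NearlyIndep {n : ℕ} (G : SimpleGraph (Fin n)) (S : Finset (Fin n)) : Prop :=
  ∃! e : Sym2 (Fin n), e ∈ G.edgeSet ∧ ∀ v ∈ e, v ∈ S

open Classical in
/-- The family of all 1-nearly independent sets. -/
noncomputable def niSets {n : ℕ} (G : SimpleGraph (Fin n)) : Finset (Finset (Fin n)) :=
  univ.filter (NearlyIndep G)

/-- The average size of a 1-nearly independent set. -/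
noncomputable def av1 {n : ℕ} (G : SimpleGraph (Fin n)) : ℚ :=
  ((∑ S ∈ niSets G, S.card : ℕ) : ℚ) / ((niSets G).card : ℚ)

/-- `R n`: centre `0` joined to `1, …, n-2`, and the extra vertex `n-1` joined to `1`. -/
def R (n : ℕ) : SimpleGraph (Fin n) :=
  SimpleGraph.fromRel (fun i j => (i.val = 0 ∧ j.val ≠ n - 1) ∨ (i.val = n - 1 ∧ j.val = 1))

open Pool.Agent.H74.Av

theorem isR_R (m : ℕ) (hm : 1 ≤ m) :
    IsR (R (m + 3)) ⟨m + 2, by omega⟩ ⟨1, by omega⟩ ⟨0, by omega⟩ := by
  refine ⟨by simp [Fin.ext_iff], by simp [Fin.ext_iff], by simp [Fin.ext_iff], fun x y => ?_⟩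
  simp only [R, SimpleGraph.fromRel_adj, ne_eq, Fin.ext_iff]
  omega

theorem two_pow_ge (m : ℕ) (hm : 7 ≤ m) : 6 * m * m ≤ 2 * 2 ^ m + 7 * m + 2 := by
  induction m, hm using Nat.le_induction with
  | base => norm_num
  | succ m hm ih =>
    have : 2 ^ (m + 1) = 2 * 2 ^ m := by ring
    nlinarith

theorem result (n : ℕ) (hn : 4 ≤ n) (T : SimpleGraph (Fin n)) (hT : T.IsTree) :
    av1 T ≤ av1 (R n) := by
  obtain ⟨m, rfl⟩ : ∃ m, n = m + 3 := ⟨n - 3, by omega⟩
  have hc : Fintype.card (Fin (m + 3)) = m + 3 := Fintype.card_fin _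
  obtain ⟨r1, r2⟩ := formula_R (isR_R m (by omega)) hc
  have e : ∀ G : SimpleGraph (Fin (m + 3)), niSets G = NI G := fun G => rfl
  unfold av1
  rw [e, e]
  by_cases hR : ∃ a b c, IsR T a b c
  · obtain ⟨a, b, c, h⟩ := hR
    obtain ⟨t1, t2⟩ := formula_R h hc
    have t3 : ∑ S ∈ NI T, S.card = ∑ S ∈ NI (R (m + 3)), S.card := by omega
    rw [t1, t3, r1]
  · have key : ∀ a b : ℕ, 0 < b → b * ∑ S ∈ NI T, S.card ≤ a * (NI T).card →
        a * (NI (R (m + 3))).card ≤ b * ∑ S ∈ NI (R (m + 3)), S.card →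
        ((∑ S ∈ NI T, S.card : ℕ) : ℚ) / ((NI T).card : ℚ) ≤
          ((∑ S ∈ NI (R (m + 3)), S.card : ℕ) : ℚ) / ((NI (R (m + 3))).card : ℚ) := by
      intro a b hb h1 h2
      have hb' : (0 : ℚ) < b := by exact_mod_cast hb
      have hp : (0 : ℚ) < (NI (R (m + 3))).card := by
        rw [r1]
        positivity
      refine le_trans (b := (a : ℚ) / b) ?_ ?_
      · rcases Nat.eq_zero_or_pos (NI T).card with h | h
        · rw [h]
          simp only [Nat.cast_zero, div_zero]
          positivity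
        · rw [div_le_div_iff₀ (by exact_mod_cast h) hb', mul_comm _ (b : ℚ)]
          exact_mod_cast h1
      · rw [div_le_div_iff₀ hb' hp, mul_comm _ (b : ℚ)]
        exact_mod_cast h2
    by_cases hm : 7 ≤ m
    · push Not at hR
      have h1 := global_bound hT (by omega) hR
      refine key _ 6 (by norm_num) h1 ?_
      have h2 := two_pow_ge m hm
      rw [hc, r1]
      nlinarith
    · have hm1 : 1 ≤ m := by omega
      have hm2 : m ≤ 6 := by omega
      interval_cases m
      · exact key 12 5 (by norm_num) (small_bound hT _ _ _ hc c4) (by omega)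
      · exact key 8 3 (by norm_num) (small_bound hT _ _ _ hc c5) (by omega)
      · exact key 3 1 (by norm_num) (small_bound hT _ _ _ hc c6) (by omega)
      · exact key 86 25 (by norm_num) (small_bound hT _ _ _ hc c7) (by omega)
      · exact key 171 43 (by norm_num) (small_bound hT _ _ _ hc c8) (by omega)
      · exact key 32 7 (by norm_num) (small_bound hT _ _ _ hc c9) (by omega)

end Pool.Agent.Results.MP_635878_co.Max
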